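import Mathlib

/-!
# Repeating `360` and appending the digit `1` never gives a prime

`C r n` is the number whose decimal expansion is the expansion of `n` written `r` times in a row, and
`10 * C r n + 1` is the number obtained by appending the digit `1`.  For `n = 360` all these numbers
(`r ≥ 1`) are composite:

* for odd `r` they are divisible by `13`;
* for `r = 2 k` one has `111 * N = (20 * 1000 ^ k - 17) * (20 * 1000 ^ k + 17)`.
-/

namespace Pool.Agent.Results.MP_842c30_nt.Counterexample360

/-- The number whose decimal expansion is the decimal expansion of `n` written `r` times in a row: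
`n * ∑_{i < r} 10 ^ (d i)`, where `d` is the number of decimal digits of `n`. -/
def C (r n : ℕ) : ℕ := n * ∑ i ∈ Finset.range r, 10 ^ ((Nat.digits 10 n).length * i)

lemma geom (r : ℕ) : 999 * (∑ i ∈ Finset.range r, 1000 ^ i) + 1 = 1000 ^ r := by
  induction r with
  | zero => simp
  | succ r ih =>
    rw [Finset.sum_range_succ, pow_succ, mul_add]
    omega

lemma C_eq (r : ℕ) : C r 360 = 360 * ∑ i ∈ Finset.range r, 1000 ^ i := by
  have h : (Nat.digits 10 360).length = 3 := by norm_num
  unfold C
  rw [h]
  congr 1
  refine Finset.sum_congr rfl (fun i _ => ?_)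
  rw [pow_mul]
  norm_num

lemma one_le_sum (r : ℕ) (hr : 1 ≤ r) : 1 ≤ ∑ i ∈ Finset.range r, 1000 ^ i := by
  have h := geom r
  have h2 : 1000 ^ 1 ≤ 1000 ^ r := Nat.pow_le_pow_right (by norm_num) hr
  omega

/-- `360` is not a power of ten, and for every `r ≥ 1` the number obtained by writing `360`
`r` times in a row and appending the digit `1` is greater than `1` and not prime. -/
theorem result : (∀ m : ℕ, 360 ≠ 10 ^ m) ∧
    ∀ r : ℕ, 1 ≤ r → 1 < 10 * C r 360 + 1 ∧ ¬ (10 * C r 360 + 1).Prime := by
  constructor
  · intro m hm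
    rcases Nat.lt_or_ge m 3 with h | h
    · interval_cases m <;> omega
    · have h2 : 10 ^ 3 ≤ 10 ^ m := Nat.pow_le_pow_right (by norm_num) h
      omega
  · intro r hr
    have hg := geom r
    have h1 := one_le_sum r hr
    rw [C_eq]
    set S := ∑ i ∈ Finset.range r, 1000 ^ i with hS
    refine ⟨by omega, ?_⟩
    intro hp
    rcases Nat.even_or_odd' r with ⟨k, hk | hk⟩
    · -- even case
      subst hk
      have hk1 : 1 ≤ k := by omega
      have hX : 1000 ≤ 1000 ^ k := by
        calc 1000 = 1000 ^ 1 := by norm_num
          _ ≤ 1000 ^ k := Nat.pow_le_pow_right (by norm_num) hk1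
      rw [pow_mul', pow_two] at hg
      set X := 1000 ^ k with hXdef
      obtain ⟨A, hA⟩ : ∃ A, 20 * X = A + 17 := ⟨20 * X - 17, by omega⟩
      have hfac : A * (20 * X + 17) = 111 * (10 * (360 * S) + 1) := by
        have e1 : A * (20 * X + 17) + 17 * (20 * X + 17) = 20 * X * (20 * X + 17) := by
          rw [hA]; ring
        have e2 : 20 * X * (20 * X + 17) = 400 * (X * X) + 340 * X := by ring
        omega
      have hdvd : (10 * (360 * S) + 1) ∣ A * (20 * X + 17) := by
        rw [hfac]; exact dvd_mul_left _ _
      rcases (Nat.Prime.dvd_mul hp).1 hdvd with ⟨c, hc⟩ | ⟨c, hc⟩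
      · have h3 : c * (20 * X + 17) = 111 := by
          have h4 : (10 * (360 * S) + 1) * (c * (20 * X + 17)) = (10 * (360 * S) + 1) * 111 := by
            rw [← mul_assoc, ← hc, hfac]; ring
          exact Nat.eq_of_mul_eq_mul_left (by omega) h4
        have hc0 : c ≠ 0 := by
          rintro rfl
          simp at h3
        have h5 : 1 * (20 * X + 17) ≤ c * (20 * X + 17) :=
          Nat.mul_le_mul_right _ (Nat.one_le_iff_ne_zero.2 hc0)
        omega
      · have h3 : A * c = 111 := by
          have h4 : (10 * (360 * S) + 1) * (A * c) = (10 * (360 * S) + 1) * 111 := by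
            have h6 : A * (20 * X + 17) = (10 * (360 * S) + 1) * (A * c) := by
              rw [hc]; ring
            rw [← h6, hfac]; ring
          exact Nat.eq_of_mul_eq_mul_left (by omega) h4
        have hc0 : c ≠ 0 := by
          rintro rfl
          simp at h3
        have h5 : A * 1 ≤ A * c := Nat.mul_le_mul_left _ (Nat.one_le_iff_ne_zero.2 hc0)
        omega
    · -- odd case
      have h13 : 1000 ^ r % 13 = 12 := by
        rw [hk, pow_succ, pow_mul, Nat.mul_mod, Nat.pow_mod]
        norm_num
      have h2 : (10 * (360 * S) + 1) % 13 = 0 := by omega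
      have h3 : 13 ∣ 10 * (360 * S) + 1 := Nat.dvd_of_mod_eq_zero h2
      have h4 := (Nat.prime_dvd_prime_iff_eq (by norm_num : Nat.Prime 13) hp).1 h3
      omega

end Pool.Agent.Results.MP_842c30_nt.Counterexample360
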